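import Pool.Agent.W_MP_002644_nt.Defs
import Pool.Agent.W_MP_002644_nt.Final

set_option autoImplicit false

namespace Pool.Agent.Results.MP_002644_nt.DensityZero

open Filter Topology Pool.Agent.W_MP_002644_nt

/-- The proportion `D(x) / π(x)` of deletable primes among the primes up to `x` tends to `0`
as the real number `x` tends to infinity. -/
theorem result : Tendsto (fun x : ℝ =>
    ({p : ℕ | Deletable p ∧ (p : ℝ) ≤ x}.ncard : ℝ) / ({p : ℕ | p.Prime ∧ (p : ℝ) ≤ x}.ncard : ℝ))
    atTop (𝓝 0) :=
  main

end Pool.Agent.Results.MP_002644_nt.DensityZero
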